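import Mathlib
import Pool.Agent.Q288.MinMax.Law
import Pool.Agent.Q288.MinMax.Limit

/-! # The value of the noisy min-max game on the binary tree converges in distribution -/

set_option autoImplicit false

namespace Pool.Agent.Results.MP_a87fbc_pr.Converges

open MeasureTheory ProbabilityTheory Filter Topology Set Q288.MinMax

/-- The value `V_n` of the game of `2 n` moves on the binary tree with cookies `X`. The vertices
are the lists over `Fin 2`, the children of `v` are `v ++ [0]` and `v ++ [1]`, and `X u` is the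
cookie on the edge between `u` and its parent. In `value X B m v` the number `m` is the number of
levels below `v`, so that the height of `v` is `2 n - m`, which is even if and only if `m` is. -/
def V (n : ℕ) (X : List (Fin 2) → ℤ) : ℤ := value X (fun _ => 0) (2 * n) []

theorem cdfv_two (n : ℕ) : (∀ k : ℤ, cdfv 2 (Measure.dirac 0) (2 * n) (2 * k) = Two.orb n k) ∧
    ∀ k : ℤ, cdfv 2 (Measure.dirac 0) (2 * n) (2 * k + 1) = Two.orb n k := by
  induction n with
  | zero =>
    constructor
    · intro k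
      rw [mul_zero, cdfv_zero, measureReal_def, Measure.dirac_apply' _ measurableSet_Iic]
      simp only [Two.orb, Function.iterate_zero, id_eq, Two.F0, indicator, mem_Iic]
      by_cases hk : 0 ≤ k
      · rw [if_pos (by omega), if_pos hk]; simp
      · rw [if_neg (by omega), if_neg hk]; simp
    · intro k
      rw [mul_zero, cdfv_zero, measureReal_def, Measure.dirac_apply' _ measurableSet_Iic]
      simp only [Two.orb, Function.iterate_zero, id_eq, Two.F0, indicator, mem_Iic]
      by_cases hk : 0 ≤ k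
      · rw [if_pos (by omega), if_pos hk]; simp
      · rw [if_neg (by omega), if_neg hk]; simp
  | succ n ih =>
    obtain ⟨i1, i2⟩ := ih
    have ho : ¬ Even (2 * n + 1) := by
      rw [Nat.not_even_iff_odd]
      exact ⟨n, rfl⟩
    have he : Even (2 * n + 1 + 1) := ⟨n + 1, by ring⟩
    have a1 : ∀ k : ℤ, cdfv 2 (Measure.dirac 0) (2 * n + 1) (2 * k - 1) =
        Two.opA (Two.orb n) k := by
      intro k
      rw [cdfv_odd _ _ _ ho, show (2 * k - 1 - 1 : ℤ) = 2 * (k - 1) by ring,
        show (2 * k - 1 + 1 : ℤ) = 2 * k by ring, i1, i1]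
      rfl
    have a2 : ∀ k : ℤ, cdfv 2 (Measure.dirac 0) (2 * n + 1) (2 * k) =
        Two.opA (Two.orb n) k := by
      intro k
      rw [cdfv_odd _ _ _ ho, show (2 * k - 1 : ℤ) = 2 * (k - 1) + 1 by ring, i2, i2]
      rfl
    have hs : Two.orb (n + 1) = Two.opB (Two.opA (Two.orb n)) := by
      unfold Two.orb
      rw [Function.iterate_succ_apply']
      rfl
    constructor
    · intro k
      rw [show 2 * (n + 1) = 2 * n + 1 + 1 by ring, cdfv_even _ _ _ he, a1,
        show (2 * k + 1 : ℤ) = 2 * (k + 1) - 1 by ring, a1, hs]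
      rfl
    · intro k
      rw [show 2 * (n + 1) = 2 * n + 1 + 1 by ring, cdfv_even _ _ _ he,
        show (2 * k + 1 - 1 : ℤ) = 2 * k by ring, a2,
        show (2 * k + 1 + 1 : ℤ) = 2 * (k + 1) by ring, a2, hs]
      rfl

theorem tendsto_fam_top {a : ℝ} (a0 : 0 < a) (a1 : a < 1) :
    Tendsto (fun n : ℕ => Two.fam a n) atTop (𝓝 1) := by
  have h1 : Tendsto (fun n : ℕ => (1 - a) ^ (n + 1)) atTop (𝓝 0) :=
    (tendsto_pow_atTop_nhds_zero_of_lt_one (by linarith) (by linarith)).comp
      (tendsto_add_atTop_nat 1)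
  have h2 : Tendsto (fun n : ℕ => Two.kap^[n] (1 - a)) atTop (𝓝 0) :=
    squeeze_zero (fun n => (Two.kapI_mem n (by linarith) (by linarith)).1)
      (fun n => Two.kap_pow (by linarith) (by linarith) n) h1
  have h3 : Tendsto (fun n : ℕ => 1 - Two.kap^[n] (1 - a)) atTop (𝓝 (1 - 0)) :=
    tendsto_const_nhds.sub h2
  rw [sub_zero] at h3
  simpa only [Two.fam_nonneg_eq] using h3

theorem tendsto_fam_bot {a : ℝ} (a0 : 0 < a) (a1 : a < 1) :
    Tendsto (fun n : ℕ => Two.fam a (-n)) atTop (𝓝 0) := by
  have h1 : Tendsto (fun n : ℕ => a ^ (n + 1)) atTop (𝓝 0) :=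
    (tendsto_pow_atTop_nhds_zero_of_lt_one (by linarith) (by linarith)).comp
      (tendsto_add_atTop_nat 1)
  have h2 : Tendsto (fun n : ℕ => Two.kap^[n] a) atTop (𝓝 0) :=
    squeeze_zero (fun n => (Two.kapI_mem n (by linarith) (by linarith)).1)
      (fun n => Two.kap_pow (by linarith) (by linarith) n) h1
  simpa only [Two.fam_neg] using h2

/-- The probability measure on `ℤ` whose distribution function is `j ↦ fam a ⌊j / 2⌋`. -/
theorem exists_mu {a : ℝ} (a0 : 0 < a) (a1 : a < 1) :
    ∃ μ : ProbabilityMeasure ℤ, ∀ j : ℤ, (μ : Measure ℤ).real (Iic j) = Two.fam a (j / 2) := by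
  have hmono : Monotone (Two.fam a) :=
    monotone_int_of_le_succ (Two.fam_good a0.le a1.le).mono
  have hm2 : Monotone fun j : ℤ => Two.fam a (j / 2) := fun i j hij =>
    hmono (Int.ediv_le_ediv (by norm_num) hij)
  refine exists_law _ hm2 ?_ ?_
  · rw [Metric.tendsto_nhds]
    intro ε hε
    obtain ⟨N, hN⟩ := ((tendsto_fam_bot a0 a1).eventually (gt_mem_nhds hε)).exists
    filter_upwards [eventually_le_atBot (-(2 * N : ℤ))] with j hj
    have h1 := (Two.fam_mem a0.le a1.le (j / 2)).1
    have h2 : Two.fam a (j / 2) ≤ Two.fam a (-N) := hmono (by omega)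
    rw [Real.dist_eq, sub_zero, abs_of_nonneg h1]
    linarith
  · rw [Metric.tendsto_nhds]
    intro ε hε
    obtain ⟨N, hN⟩ := ((tendsto_fam_top a0 a1).eventually
      (lt_mem_nhds (show 1 - ε < 1 by linarith))).exists
    filter_upwards [eventually_ge_atTop (2 * N : ℤ)] with j hj
    have h1 := (Two.fam_mem a0.le a1.le (j / 2)).2
    have h2 : Two.fam a N ≤ Two.fam a (j / 2) := hmono (by omega)
    rw [Real.dist_eq, abs_sub_comm, abs_of_nonneg (by linarith)]
    linarith

universe u

/-- The value `V_n` of the noisy min-max game on the binary tree converges in distribution. The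
limit `μ` is supported by the even integers, and its distribution function at `2 k` is `f k`,
where `f (k + 1) = 2 √(f k) - f k` and `f 0 = a` for some `a ∈ (0, 1)`. -/
theorem result : ∃ (a : ℝ) (f : ℤ → ℝ) (μ : ProbabilityMeasure ℤ),
    (0 < a ∧ a < 1 ∧ f 0 = a ∧
      ∀ k, 0 ≤ f k ∧ f k ≤ 1 ∧ f (k + 1) = 2 * √(f k) - f k) ∧
    (∀ k : ℤ, (μ : Measure ℤ).real (Iic (2 * k)) = f k ∧
      (μ : Measure ℤ).real (Iic (2 * k + 1)) = f k) ∧
    ∀ (Ω : Type u) [MeasurableSpace Ω] (P : Measure Ω) [IsProbabilityMeasure P]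
      (X : List (Fin 2) → Ω → ℤ), (∀ v, Measurable (X v)) → iIndepFun X P →
      (∀ v, P {ω | X v ω = 1} = 1 / 2) → (∀ v, P {ω | X v ω = -1} = 1 / 2) →
      TendstoInDistribution (fun n ω => V n fun v => X v ω) atTop (id : ℤ → ℤ)
        (fun _ => P) (μ : Measure ℤ) := by
  obtain ⟨a, a0, a1, ha⟩ := Two.tendsto_orb
  obtain ⟨μ, hμ⟩ := exists_mu a0 a1
  refine ⟨a, Two.fam a, μ, ⟨a0, a1, Two.fam_zero a, fun k =>
    ⟨(Two.fam_mem a0.le a1.le k).1, (Two.fam_mem a0.le a1.le k).2, Two.fam_succ a0.le a1.le k⟩⟩,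
    fun k => ⟨?_, ?_⟩, ?_⟩
  · rw [hμ]
    congr 1
    omega
  · rw [hμ]
    congr 1
    omega
  · intro Ω _ P _ X hX hind h1 h2
    refine ⟨fun n => (measurable_value_zero X hX (2 * n)).aemeasurable, aemeasurable_id, ?_⟩
    refine tendsto_of_cdf fun j => ?_
    have hlim : Tendsto (fun n => Two.orb n (j / 2)) atTop (𝓝 (Two.fam a (j / 2))) :=
      ((continuous_apply (j / 2)).tendsto _).comp ha
    have e1 : ∀ n : ℕ, (P.map fun ω => V n fun v => X v ω).real (Iic j) =
        Two.orb n (j / 2) := by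
      intro n
      have hVm : Measurable fun ω => V n fun v => X v ω := measurable_value_zero X hX (2 * n)
      rw [map_measureReal_apply hVm measurableSet_Iic]
      have h3 := value_law_zero P X hX hind h1 h2 (2 * n) j
      have h4 : cdfv 2 (Measure.dirac 0) (2 * n) j = Two.orb n (j / 2) := by
        rcases Int.even_or_odd' j with ⟨k, hk | hk⟩
        · rw [hk, (cdfv_two n).1]
          congr 1
          omega
        · rw [hk, (cdfv_two n).2]
          congr 1
          omega
      rw [← h4, ← h3]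
      rfl
    have e2 : ((μ : Measure ℤ).map id).real (Iic j) = Two.fam a (j / 2) := by
      rw [Measure.map_id, hμ]
    simp only [ProbabilityMeasure.coe_mk]
    rw [e2]
    exact (tendsto_congr e1).2 hlim

end Pool.Agent.Results.MP_a87fbc_pr.Converges
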